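import Mathlib

set_option autoImplicit false

namespace Pool.Agent.P.MP_3a4479_al.H

open scoped TensorProduct

/-- a solid algebra in which a linear equation has a solution can be replaced by a solid domain
of finite type in which the equation has a solution -/
theorem exists_domain (R S : Type) [CommRing R] [IsNoetherianRing R] [CommRing S] [Algebra R S]
    (n : ℕ) (g : Fin n → R) (u : R) (Y : Fin n → S) (hφ : ∃ φ : S →ₗ[R] R, φ ≠ 0)
    (hY : algebraMap R S u = ∑ i, algebraMap R S (g i) * Y i) :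
    ∃ (S' : Type) (_ : CommRing S') (_ : IsDomain S') (_ : Algebra R S'),
      Algebra.FiniteType R S' ∧ (∃ φ : S' →ₗ[R] R, φ ≠ 0) ∧
      ∃ Y' : Fin n → S', algebraMap R S' u = ∑ i, algebraMap R S' (g i) * Y' i := by
  let A := MvPolynomial (Fin n) R
  let F : A := algebraMap R A u - ∑ i, algebraMap R A (g i) * MvPolynomial.X i
  obtain ⟨φ, hφ⟩ := hφ
  obtain ⟨s, hs⟩ : ∃ s, φ s ≠ 0 := by
    by_contra h
    exact hφ (LinearMap.ext fun s => by simpa using not_exists.1 h s)
  let θ : A →ₐ[R] S := MvPolynomial.aeval Y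
  obtain ⟨P, ⟨hF, ψ, hψ, hP⟩, hmax⟩ := set_has_maximal_iff_noetherian.2
    (inferInstance : IsNoetherian A A)
    {J : Ideal A | F ∈ J ∧ ∃ ψ : A →ₗ[R] R, ψ ≠ 0 ∧ ∀ x ∈ J, ψ x = 0}
    ⟨RingHom.ker θ, by
      rw [RingHom.mem_ker]
      have hX : ∀ i, θ (MvPolynomial.X i) = Y i := fun i => MvPolynomial.aeval_X Y i
      simp only [F, map_sub, map_sum, map_mul, AlgHom.commutes, hX]
      rw [hY, sub_self],
      (φ.comp (LinearMap.mulLeft R s)).comp θ.toLinearMap,
      fun h => hs (by simpa using LinearMap.congr_fun h 1),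
      fun x hx => by simp [RingHom.mem_ker.1 hx]⟩
  have grow : ∀ (a : A) (χ : A →ₗ[R] R), χ ≠ 0 → (∀ x ∈ P, χ x = 0) → (∀ y, χ (y * a) = 0) →
      a ∈ P := by
    intro a χ h0 h1 h2
    by_contra ha
    refine hmax (P ⊔ Ideal.span {a}) ⟨Ideal.mem_sup_left hF, χ, h0, fun x hx => ?_⟩
      (lt_of_le_of_ne le_sup_left fun h => ha (h ▸ Ideal.mem_sup_right (Ideal.mem_span_singleton_self a)))
    obtain ⟨p, hp, q, hq, rfl⟩ := Submodule.mem_sup.1 hx
    obtain ⟨y, rfl⟩ := Ideal.mem_span_singleton'.1 hq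
    rw [map_add, h1 p hp, h2, add_zero]
  have hprime : Ideal.IsPrime P := by
    refine ⟨fun h => hψ (LinearMap.ext fun x => hP x (h ▸ trivial)), fun {a b} hab => ?_⟩
    by_cases h0 : ψ.comp (LinearMap.mulRight R a) = 0
    · exact Or.inl (grow a ψ hψ hP fun y => LinearMap.congr_fun h0 y)
    · refine Or.inr (grow b _ h0 (fun x hx => hP _ (Ideal.mul_mem_right a P hx)) fun y => hP _ ?_)
      simp only [LinearMap.mulRight_apply]
      rw [mul_assoc, mul_comm b a]
      exact Ideal.mul_mem_left P y hab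
  refine ⟨A ⧸ P, inferInstance, inferInstance, inferInstance, inferInstance,
    ⟨((P.restrictScalars R).liftQ ψ fun x hx => hP x hx).comp
      (Submodule.Quotient.restrictScalarsEquiv R P).symm.toLinearMap, fun h => hψ ?_⟩,
    fun i => Ideal.Quotient.mk P (MvPolynomial.X i), ?_⟩
  · exact LinearMap.ext fun x => LinearMap.congr_fun h (Ideal.Quotient.mk P x)
  · have := Ideal.Quotient.eq_zero_iff_mem.2 hF
    simp only [F, map_sub, map_sum, map_mul, sub_eq_zero] at this
    exact this

/-- solidity passes to the base change to a localisation -/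
theorem solid_loc (R Rl S : Type) [CommRing R] [CommRing Rl] [Algebra R Rl] [CommRing S]
    [Algebra R S] (hRl : Function.Injective (algebraMap R Rl))
    (n : ℕ) (g : Fin n → R) (u : R) (Y : Fin n → S) (hφ : ∃ φ : S →ₗ[R] R, φ ≠ 0)
    (hY : algebraMap R S u = ∑ i, algebraMap R S (g i) * Y i) :
    (∃ φ : (Rl ⊗[R] S) →ₗ[Rl] Rl, φ ≠ 0) ∧ algebraMap Rl (Rl ⊗[R] S) (algebraMap R Rl u) =
      ∑ i, algebraMap Rl (Rl ⊗[R] S) (algebraMap R Rl (g i)) * (1 ⊗ₜ Y i) := by
  obtain ⟨φ, hφ⟩ := hφ
  have h1 : ∀ r : R, algebraMap Rl (Rl ⊗[R] S) (algebraMap R Rl r) = 1 ⊗ₜ algebraMap R S r :=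
    fun r => by
      rw [← IsScalarTower.algebraMap_apply, Algebra.TensorProduct.algebraMap_apply']
  refine ⟨⟨(TensorProduct.AlgebraTensorModule.rid R Rl Rl).toLinearMap.comp (φ.baseChange Rl),
      fun e => hφ (LinearMap.ext fun s => hRl ?_)⟩, ?_⟩
  · have := LinearMap.congr_fun e (1 ⊗ₜ s)
    simpa [Algebra.smul_def] using this
  · simp only [h1, Algebra.TensorProduct.tmul_mul_tmul, mul_one]
    rw [hY, TensorProduct.tmul_sum]

theorem exists_domain_loc (R Rl S : Type) [CommRing R] [CommRing Rl] [IsNoetherianRing Rl]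
    [Algebra R Rl] [CommRing S] [Algebra R S] (hRl : Function.Injective (algebraMap R Rl))
    (n : ℕ) (g : Fin n → R) (u : R) (Y : Fin n → S) (hφ : ∃ φ : S →ₗ[R] R, φ ≠ 0)
    (hY : algebraMap R S u = ∑ i, algebraMap R S (g i) * Y i) :
    ∃ (S' : Type) (_ : CommRing S') (_ : IsDomain S') (_ : Algebra Rl S'),
      Algebra.FiniteType Rl S' ∧ (∃ φ : S' →ₗ[Rl] Rl, φ ≠ 0) ∧
      ∃ Y' : Fin n → S', algebraMap Rl S' (algebraMap R Rl u) =
        ∑ i, algebraMap Rl S' (algebraMap R Rl (g i)) * Y' i := by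
  obtain ⟨h1, h2⟩ := solid_loc R Rl S hRl n g u Y hφ hY
  exact exists_domain Rl (Rl ⊗[R] S) n (fun i => algebraMap R Rl (g i)) (algebraMap R Rl u) _ h1 h2

theorem height_max (k : Type) [Field k] (n : ℕ) :
    ∀ (P : Ideal (MvPolynomial (Fin n) k)), P.IsMaximal → P.height = n := by
  induction n with
  | zero =>
    intro P hP
    have h1 := Ideal.height_le_ringKrullDim_of_isPrime (I := P)
    rw [MvPolynomial.ringKrullDim_of_isNoetherianRing, ringKrullDim_eq_zero_of_field] at h1
    simp only [Nat.card_eq_fintype_card, Fintype.card_fin, Nat.cast_zero, add_zero] at h1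
    exact le_antisymm (by exact_mod_cast h1) (by simp)
  | succ n ih =>
    intro P hP
    let e := (MvPolynomial.finSuccEquiv k n).toRingEquiv
    have h1 : (P.comap e.symm).IsMaximal := Ideal.comap_isMaximal_of_equiv _
    have h2 : ((P.comap e.symm).under (MvPolynomial (Fin n) k)).IsMaximal :=
      Polynomial.isMaximal_comap_C_of_isJacobsonRing _
    rw [← e.symm.height_comap P, Polynomial.height_eq_height_add_one
      ((P.comap e.symm).under (MvPolynomial (Fin n) k)) (P.comap e.symm), ih _ h2]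
    push_cast
    rfl

theorem height_of_finite (k B : Type) [Field k] [CommRing B] [IsDomain B] [IsNoetherianRing B]
    (n : ℕ) (al : MvPolynomial (Fin n) k →+* B) (hi : Function.Injective al) (hf : al.Finite)
    (P : Ideal B) [P.IsPrime] (hm : (P.comap al).IsMaximal) : P.height = n := by
  let A := MvPolynomial (Fin n) k
  let : Algebra A B := al.toAlgebra
  have : Module.Finite A B := hf
  have : FaithfulSMul A B := (faithfulSMul_iff_algebraMap_injective _ _).2 hi
  apply le_antisymm
  · have h1 := Ideal.height_le_ringKrullDim_of_isPrime (I := P)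
    have h2 : ringKrullDim B ≤ ringKrullDim A :=
      Order.krullDim_le_of_strictMono (PrimeSpectrum.comap (algebraMap A B))
        fun p q h => Ideal.IsIntegral.comap_lt_comap (R := A) (I := p.asIdeal) (J := q.asIdeal) h
    rw [MvPolynomial.ringKrullDim_of_isNoetherianRing, ringKrullDim_eq_zero_of_field] at h2
    simp only [Nat.card_eq_fintype_card, Fintype.card_fin, zero_add] at h2
    exact_mod_cast h1.trans h2
  · rw [Ideal.height_eq_height_add_of_liesOver_of_hasGoingDown (P.under A) P]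
    exact (height_max k n _ hm).ge.trans le_self_add

end Pool.Agent.P.MP_3a4479_al.H
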